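import Pool.Agent.W581.Parking.Main

set_option autoImplicit false

open MeasureTheory ProbabilityTheory Filter Topology
open scoped ENNReal unitInterval
open Pool.Agent.W581.Parking

namespace Pool.Agent.Results.MP_971c94_pr.LampLog

/-- A negative answer to Q2. There is a transitive, unimodular, infinitely accessible triple for
which `E_p V ≤ 2 + log ((1-p)/(1-2p))` for all `p < 1/2`.  Hence `E_p V (1/2-p)^γ → 0` as
`p ↗ 1/2` for every `γ > 0`, and there are no `γ > 0`, `C > 0` with `E_p V (1/2-p)^γ → C`. -/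
theorem result : ∃ (V : Type) (_ : MeasurableSpace V) (_ : DiscreteMeasurableSpace V)
    (T : Triple V), T.Transitive ∧ T.Unimodular ∧ T.InfinitelyAccessible ∧
      (∀ (v : V) (p : I), (p : ℝ) < 1 / 2 →
        EV T p v ≤ ENNReal.ofReal (2 + Real.log ((1 - p) / (1 - 2 * p)))) ∧
      (∀ (v : V) (γ : ℝ), 0 < γ →
        Tendsto (fun p : I => EV T p v * ENNReal.ofReal ((1 / 2 - (p : ℝ)) ^ γ))
          (𝓝[<] half) (𝓝 0)) ∧
      (∀ v : V, ¬ ∃ γ C : ℝ, 0 < γ ∧ 0 < C ∧
        Tendsto (fun p : I => EV T p v * ENNReal.ofReal ((1 / 2 - (p : ℝ)) ^ γ))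
          (𝓝[<] half) (𝓝 (ENNReal.ofReal C))) := by
  refine ⟨LL, inferInstance, inferInstance, lampTriple, lamp_transitive, lamp_unimodular,
    lamp_accessible, fun v p hp => lamp_EV_le p hp v, fun v γ hγ => lamp_limit v hγ, ?_⟩
  rintro v ⟨γ, C, hγ, hC, hlim⟩
  have h0 := lamp_limit v hγ
  have h1 := tendsto_nhds_unique h0 hlim
  have h2 : ENNReal.ofReal C = 0 := h1.symm
  rw [ENNReal.ofReal_eq_zero] at h2
  linarith

end Pool.Agent.Results.MP_971c94_pr.LampLog
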